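import Pool.Agent.Helper34.SG.Names

/-! Blocks S2 and S3 (helper24): the Steinhaus property of the Cantor group and of the circle. -/

namespace Pool.Agent.Helper34.SG

namespace S23

open Finset

theorem card_le_of_length {n : ℕ} (F : Finset (List Bool)) (hF : ∀ x ∈ F, x.length = n) :
    F.card ≤ 2 ^ n := by
  classical
  have h1 := card_le_card_of_injOn (s := F) (t := (univ : Finset (Fin n → Bool)))
    (fun x i => x.getD i false) (fun _ _ => mem_univ _) (by
      intro x hx y hy hxy
      refine List.ext_getElem ((hF x hx).trans (hF y hy).symm) ?_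
      intro i hi hi'
      have := congrFun hxy ⟨i, (hF x hx) ▸ hi⟩
      simpa [List.getD_eq_getElem, hi, hi'] using this)
  refine h1.trans ?_
  rw [card_univ, Fintype.card_fun, Fintype.card_bool, Fintype.card_fin]

theorem card_le_of_prefix {k : ℕ} (ρ : List Bool) (F : Finset (List Bool))
    (hF : ∀ x ∈ F, x.length = k ∧ ρ <+: x) : F.card ≤ 2 ^ (k - ρ.length) := by
  classical
  have h1 : F.card = (F.image (fun x => x.drop ρ.length)).card := by
    rw [card_image_of_injOn]
    intro x hx y hy hxy
    obtain ⟨x', rfl⟩ := (hF x hx).2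
    obtain ⟨y', rfl⟩ := (hF y hy).2
    have : x' = y' := by simpa using hxy
    rw [this]
  rw [h1]
  refine card_le_of_length _ ?_
  intro x hx
  obtain ⟨y, hy, rfl⟩ := mem_image.mp hx
  rw [List.length_drop, (hF y hy).1]

theorem xor_xor (a w : List Bool) (h : a.length = w.length) :
    List.zipWith xor (List.zipWith xor a w) a = w := by
  induction a generalizing w with
  | nil =>
    cases w with
    | nil => rfl
    | cons b w => simp at h
  | cons c a ih =>
    cases w with
    | nil => simp at h
    | cons b w =>
      simp only [List.length_cons, Nat.add_right_cancel_iff] at h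
      simp only [List.zipWith_cons_cons, ih w h, List.cons.injEq, and_true]
      cases b <;> cases c <;> rfl

theorem xor_xor' (a w : List Bool) (h : a.length = w.length) :
    List.zipWith xor (List.zipWith xor a w) w = a := by
  have h1 : List.zipWith xor a w = List.zipWith xor w a :=
    List.zipWith_comm_of_comm (fun x y => Bool.xor_comm x y)
  rw [h1]
  exact xor_xor w a h.symm

end S23

open S23 Finset in
theorem stein_cantor : Stein NbC := by
  classical
  intro ρ₁ σ₁ hlen
  refine ⟨List.zipWith xor ρ₁ σ₁, fun τ hτ => ⟨τ.length, fun k hk B A hB hA hBc hAc => ?_⟩⟩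
  -- the target
  set w : List Bool := τ ++ List.replicate (k - τ.length) false with hw
  have hwl : w.length = k := by
    rw [hw, List.length_append, List.length_replicate]
    omega
  have hτw : τ <+: w := List.prefix_append _ _
  have hpre : ∀ a, a.length = k → σ₁ <+: a → ρ₁ <+: List.zipWith xor a w := by
    intro a ha hσa
    obtain ⟨a', rfl⟩ := hσa
    obtain ⟨w', hw'⟩ := hτ.trans hτw
    rw [← hw', List.zipWith_append]
    · have h1 : List.zipWith xor σ₁ (List.zipWith xor ρ₁ σ₁) = ρ₁ := by
        have : List.zipWith xor σ₁ (List.zipWith xor ρ₁ σ₁) =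
          List.zipWith xor (List.zipWith xor ρ₁ σ₁) σ₁ :=
          List.zipWith_comm_of_comm (fun x y => Bool.xor_comm x y)
        rw [this]
        exact xor_xor' ρ₁ σ₁ hlen
      rw [h1]
      exact List.prefix_append _ _
    · rw [List.length_zipWith, hlen, min_self]
  have hAi : (A.image (fun a => List.zipWith xor a w)).card = A.card := by
    rw [card_image_of_injOn]
    intro x hx y hy hxy
    have h1 := xor_xor' x w ((hA x hx).1.trans hwl.symm)
    have h2 := xor_xor' y w ((hA y hy).1.trans hwl.symm)
    dsimp only at hxy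
    rw [← h1, ← h2, hxy]
  have hun : (B ∪ A.image (fun a => List.zipWith xor a w)).card ≤ 2 ^ (k - ρ₁.length) := by
    refine card_le_of_prefix ρ₁ _ ?_
    intro x hx
    rcases mem_union.mp hx with hx | hx
    · exact hB x hx
    · obtain ⟨a, ha, rfl⟩ := mem_image.mp hx
      refine ⟨?_, hpre a (hA a ha).1 (hA a ha).2⟩
      rw [List.length_zipWith, (hA a ha).1, hwl, min_self]
  have hne : (B ∩ A.image (fun a => List.zipWith xor a w)).Nonempty := by
    rw [nonempty_iff_ne_empty]
    intro h0
    have h1 := card_union_add_card_inter B (A.image (fun a => List.zipWith xor a w))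
    rw [h0, card_empty, add_zero, hAi] at h1
    have h2 : (B.card : ℝ) + A.card ≤ 2 ^ (k - ρ₁.length) := by
      have : B.card + A.card ≤ 2 ^ (k - ρ₁.length) := h1 ▸ hun
      exact_mod_cast this
    have h3 : (0 : ℝ) < 2 ^ (k - ρ₁.length) := by positivity
    linarith
  obtain ⟨b, hb⟩ := hne
  obtain ⟨hbB, hbA⟩ := mem_inter.mp hb
  obtain ⟨a, ha, hab⟩ := mem_image.mp hbA
  refine ⟨b, hbB, a, ha, fun l hl => ?_⟩
  rw [NbC, mem_singleton] at hl
  rw [hl, ← hab, xor_xor a w ((hA a ha).1.trans hwl.symm)]
  exact hτw

end Pool.Agent.Helper34.SG
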