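import Pool.Agent.Helper34.SG.Names
import Pool.Agent.Helper24.SG.Stein2

/-!
MP_ff0b57_lc, block EC: the sets of the E-set of a stage are null sets.
-/

namespace Pool.Agent.Helper34.SG

open Set Function

set_option linter.unusedSectionVars false

variable {I : Type} [LinearOrder I] [WellFoundedLT I]

namespace ECN

/-- all strings of a length -/
def strs : ℕ → Finset (List Bool)
  | 0 => {[]}
  | n + 1 => (strs n).image (List.cons false) ∪ (strs n).image (List.cons true)

theorem mem_strs {n : ℕ} {s : List Bool} : s ∈ strs n ↔ s.length = n := by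
  induction n generalizing s with
  | zero => simp [strs]
  | succ n ih =>
    simp only [strs, Finset.mem_union, Finset.mem_image]
    constructor
    · rintro (⟨t, ht, rfl⟩ | ⟨t, ht, rfl⟩) <;> simp [ih.1 ht]
    · intro h
      cases s with
      | nil => simp at h
      | cons b t =>
        have ht : t ∈ strs n := ih.2 (by simpa using h)
        cases b
        · exact Or.inl ⟨t, ht, rfl⟩
        · exact Or.inr ⟨t, ht, rfl⟩

theorem exists_len {γ α : I} (h : α < γ) (k : ℕ) : ∀ p : Cn I, Val γ p →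
    ∃ q, Ext γ q p ∧ q.dom α ∧ k ≤ (q.st α).length := by
  induction k with
  | zero =>
    intro p hp
    obtain ⟨q, h1, h2, -⟩ := exists_dom α hp
    exact ⟨q, h1, h2, Nat.zero_le _⟩
  | succ k ih =>
    intro p hp
    obtain ⟨q, h1, h2, h3⟩ := ih p hp
    obtain ⟨r, g1, g2, g3, -, -, M, g4⟩ := exists_addV h1.1 h h2
    refine ⟨_, (g4 M le_rfl).trans (g1.trans h1), Or.inl rfl, ?_⟩
    rw [upd_st, List.length_append, List.length_singleton, g3]
    omega

theorem wt_W (n v : ℕ) : wt (W n v) ≤ (1 / 2) ^ n := by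
  unfold W
  split_ifs with h
  · exact h
  · simp [wt]

theorem sum_half (m : ℕ) : ∀ d : ℕ, ∑ n ∈ Finset.Ico m (m + d), (1 / 2 : ℝ) ^ n
    = 2 * (1 / 2) ^ m - 2 * (1 / 2) ^ (m + d) := by
  intro d
  induction d with
  | zero => simp
  | succ d ih =>
    rw [← add_assoc, Finset.sum_Ico_succ_top (by omega), ih, pow_succ (1 / 2 : ℝ) (m + d)]
    ring

theorem sum_bU {ι β : Type} [DecidableEq β] (s : Finset ι) (t : ι → Finset β) (f : β → ℝ)
    (hf : ∀ x, 0 ≤ f x) : ∑ x ∈ s.biUnion t, f x ≤ ∑ i ∈ s, ∑ x ∈ t i, f x := by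
  classical
  induction s using Finset.induction_on with
  | empty => simp
  | insert a s ha ih =>
    rw [Finset.biUnion_insert, Finset.sum_insert ha]
    have h1 := Finset.sum_union_inter (s₁ := t a) (s₂ := s.biUnion t) (f := f)
    have h2 : 0 ≤ ∑ x ∈ t a ∩ s.biUnion t, f x := Finset.sum_nonneg fun x _ => hf x
    linarith

end ECN

open ECN

theorem EC_null {κ : I} {sc : I → I} (hκ : Long κ sc) {α : I} (hα : α < κ) {p : Cn I}
    (hp : Val κ p) (j k : ℕ) :
    ∃ q, Ext κ q p ∧ ∃ (n : ℕ) (S : Finset (List Bool)), (∀ s ∈ S, s.length = n) ∧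
      S.card * 2 ^ k ≤ 2 ^ n ∧
      ∀ s : List Bool, s.length = n → s ∉ S →
        EC α (sc α) (Nat.pair j (Encodable.encode s)) q := by
  classical
  set m := max j (k + 1) with hm
  obtain ⟨q₁, h1, h2, h3⟩ := exists_len (hκ.sc_lt α hα) (m + 1) p hp
  obtain ⟨b, hb⟩ : ∃ b, (q₁.st (sc α))[m]? = some b :=
    ⟨_, List.getElem?_eq_getElem (by omega)⟩
  obtain ⟨q, h4, h5, h6⟩ := exists_len hα b q₁ h1.1
  have hle := (Le_iff κ q q₁).1 h4.2 (sc α) (hκ.sc_lt α hα) h2
  obtain ⟨h7, h8, -, -⟩ := hle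
  have hb' : (q.st (sc α))[m]? = some b := by
    obtain ⟨t, ht⟩ := h8
    rw [← ht, List.getElem?_append_left (by omega)]
    exact hb
  -- the strings
  set g : ℕ → ℕ := fun n => (q.st α)[n]?.getD 0 with hg
  set U : Finset (List Bool) := (Finset.Ico m b).biUnion fun n => W n (g n) with hU
  set N := U.sup List.length with hN
  set S := (strs N).filter fun s => ∃ τ ∈ U, τ <+: s with hS
  refine ⟨q, h4.trans h1, N, S, fun s hs => mem_strs.1 (Finset.mem_filter.1 hs).1, ?_, ?_⟩
  · have hc1 : (S.card : ℝ) ≤ ∑ τ ∈ U, (2 : ℝ) ^ (N - τ.length) := by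
      have e1 : S = U.biUnion fun τ => (strs N).filter fun s => τ <+: s := by
        ext s
        simp only [hS, Finset.mem_filter, Finset.mem_biUnion]
        constructor
        · rintro ⟨h, τ, hτ, h'⟩
          exact ⟨τ, hτ, h, h'⟩
        · rintro ⟨τ, hτ, h, h'⟩
          exact ⟨h, τ, hτ, h'⟩
      rw [e1]
      have e2 := Finset.card_biUnion_le (s := U) (t := fun τ => (strs N).filter fun s => τ <+: s)
      calc ((U.biUnion fun τ => (strs N).filter fun s => τ <+: s).card : ℝ)
          ≤ ((∑ τ ∈ U, ((strs N).filter fun s => τ <+: s).card : ℕ) : ℝ) := by exact_mod_cast e2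
        _ = ∑ τ ∈ U, (((strs N).filter fun s => τ <+: s).card : ℝ) := by push_cast; rfl
        _ ≤ ∑ τ ∈ U, (2 : ℝ) ^ (N - τ.length) := by
          refine Finset.sum_le_sum fun τ hτ => ?_
          have := S23.card_le_of_prefix (k := N) τ ((strs N).filter fun s => τ <+: s)
            fun x hx => ⟨mem_strs.1 (Finset.mem_filter.1 hx).1, (Finset.mem_filter.1 hx).2⟩
          exact_mod_cast this
    have hc2 : ∑ τ ∈ U, (2 : ℝ) ^ (N - τ.length) = 2 ^ N * wt U := by
      unfold wt
      rw [Finset.mul_sum]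
      refine Finset.sum_congr rfl fun τ hτ => ?_
      have : τ.length ≤ N := Finset.le_sup (f := List.length) hτ
      rw [pow_sub₀ (2 : ℝ) two_ne_zero this, one_div, inv_pow]
    have hc3 : wt U ≤ ∑ n ∈ Finset.Ico m b, wt (W n (g n)) := by
      have e3 : wt U ≤ ∑ n ∈ Finset.Ico m b, ∑ σ ∈ W n (g n), (1 / 2 : ℝ) ^ σ.length := by
        have e4 : wt U = ∑ x ∈ (Finset.Ico m b).biUnion fun n => W n (g n), (1 / 2 : ℝ) ^ x.length :=
          rfl
        rw [e4]
        exact sum_bU _ _ _ fun _ => by positivity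
      exact e3
    have hc4 : ∑ n ∈ Finset.Ico m b, wt (W n (g n)) ≤ (1 / 2) ^ k := by
      calc ∑ n ∈ Finset.Ico m b, wt (W n (g n)) ≤ ∑ n ∈ Finset.Ico m b, (1 / 2 : ℝ) ^ n :=
            Finset.sum_le_sum fun n _ => wt_W _ _
        _ ≤ 2 * (1 / 2) ^ m := by
          rcases le_total b m with hbm | hbm
          · rw [Finset.Ico_eq_empty (by omega), Finset.sum_empty]
            positivity
          · obtain ⟨d, rfl⟩ := Nat.exists_eq_add_of_le hbm
            rw [sum_half]
            have : (0 : ℝ) ≤ 2 * (1 / 2) ^ (m + d) := by positivity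
            linarith
        _ ≤ 2 * (1 / 2) ^ (k + 1) := by
          have : (1 / 2 : ℝ) ^ m ≤ (1 / 2) ^ (k + 1) :=
            pow_le_pow_of_le_one (by norm_num) (by norm_num) (le_max_right _ _)
          linarith
        _ = (1 / 2) ^ k := by rw [pow_succ]; ring
    have hc5 : (S.card : ℝ) * 2 ^ k ≤ 2 ^ N := by
      have : (S.card : ℝ) ≤ 2 ^ N * (1 / 2) ^ k := by
        rw [hc2] at hc1
        refine hc1.trans ?_
        exact mul_le_mul_of_nonneg_left (hc3.trans hc4) (by positivity)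
      calc (S.card : ℝ) * 2 ^ k ≤ 2 ^ N * (1 / 2) ^ k * 2 ^ k :=
            mul_le_mul_of_nonneg_right this (by positivity)
        _ = 2 ^ N := by
          rw [mul_assoc, ← mul_pow]
          norm_num
    exact_mod_cast hc5
  · intro s hs hsS
    refine ⟨j, m, b, s, rfl, le_max_left _ _, h5, h7, hb', h6, fun n v hn hnb hv τ hτ => ?_⟩
    have hgn : g n = v := by
      simp [hg, hv]
    have hτU : τ ∈ U := Finset.mem_biUnion.2 ⟨n, Finset.mem_Ico.2 ⟨hn, hnb⟩, by rw [hgn]; exact hτ⟩
    have h9 : ¬ τ <+: s := fun h => hsS (Finset.mem_filter.2 ⟨mem_strs.2 hs, τ, hτU, h⟩)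
    refine ⟨h9, fun h => h9 ?_⟩
    have h10 : τ.length ≤ N := Finset.le_sup (f := List.length) hτU
    rw [h.eq_of_length (by have := h.length_le; omega)]

end Pool.Agent.Helper34.SG
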