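import Pool.Agent.Helper34.SG.Names

/-! Block M (helper24): the index set of the iteration and closed points. -/

namespace Pool.Agent.Helper34.SG

open Set

namespace BM

theorem aleph_two : Cardinal.aleph 2 = Order.succ (Cardinal.aleph 1) := by
  rw [Cardinal.succ_aleph]
  congr 1
  norm_num

theorem union_small {J : Type} (s : Set J) (hs : Cardinal.mk s ≤ Cardinal.aleph 1)
    (f : s → Set J) (hf : ∀ i, Cardinal.mk (f i) ≤ Cardinal.aleph 1) :
    Cardinal.mk (⋃ i : s, f i) ≤ Cardinal.aleph 1 := by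
  refine (Cardinal.mk_iUnion_le f).trans ?_
  have h1 : ⨆ i, Cardinal.mk (f i) ≤ Cardinal.aleph 1 := ciSup_le' hf
  calc Cardinal.mk s * ⨆ i, Cardinal.mk (f i) ≤ Cardinal.aleph 1 * Cardinal.aleph 1 :=
        mul_le_mul' hs h1
    _ = Cardinal.aleph 1 := Cardinal.mul_eq_self (Cardinal.aleph0_le_aleph 1)

/-- sets of size at most `ℵ₁` in `ω₂` are bounded -/
theorem bdd_aux (J : Type) [LinearOrder J] (hJ : Cardinal.mk J = Cardinal.aleph 2)
    (hJ2 : ∀ i : J, Cardinal.mk (Iio i) ≤ Cardinal.aleph 1)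
    (s : Set J) (hs : Cardinal.mk s ≤ Cardinal.aleph 1) :
    ∃ δ, ∀ i ∈ s, i < δ := by
  by_contra hno
  push Not at hno
  have h1 : (univ : Set J) ⊆ ⋃ i : s, Iic i.1 := by
    intro δ _
    obtain ⟨i, hi, hδ⟩ := hno δ
    exact mem_iUnion.mpr ⟨⟨i, hi⟩, hδ⟩
  have h2 : ∀ i : J, Cardinal.mk (Iic i) ≤ Cardinal.aleph 1 := by
    intro i
    rw [← Set.Iio_insert]
    refine (Cardinal.mk_insert_le).trans ?_
    refine Cardinal.add_le_of_le (Cardinal.aleph0_le_aleph 1) (hJ2 i) ?_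
    exact Cardinal.one_le_aleph0.trans (Cardinal.aleph0_le_aleph 1)
  have h3 : Cardinal.mk (univ : Set J) ≤ Cardinal.aleph 1 :=
    (Cardinal.mk_le_mk_of_subset h1).trans (union_small s hs _ fun i => h2 i.1)
  rw [Cardinal.mk_univ, hJ, aleph_two] at h3
  exact absurd h3 (not_le.mpr (Order.lt_succ _))

theorem exists_J : ∃ (J : Type) (_ : LinearOrder J) (_ : WellFoundedLT J),
    Cardinal.mk J = Cardinal.aleph 2 ∧ ∀ i : J, Cardinal.mk (Iio i) ≤ Cardinal.aleph 1 := by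
  refine ⟨(Cardinal.aleph 2).ord.ToType, inferInstance, inferInstance,
    Cardinal.mk_ord_toType _, fun i => ?_⟩
  have h3 : Cardinal.mk (Iio i) < Cardinal.aleph 2 := by
    simpa using Cardinal.mk_Iio_lt i
  exact Order.lt_succ_iff.mp (h3.trans_eq aleph_two)

theorem exists_long_aux : ∃ (I : Type) (_ : LinearOrder I) (_ : WellFoundedLT I) (κ : I)
    (sc : I → I), (∀ α < κ, sc α < κ) ∧ (∀ α < κ, ∀ η, η < sc α ↔ η ≤ α) ∧
    (∀ s : Set I, Cardinal.mk s ≤ Cardinal.aleph 1 → (∀ i ∈ s, i < κ) → ∃ δ < κ, ∀ i ∈ s, i < δ) ∧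
    ∀ α < κ, Cardinal.mk (Iio α) ≤ Cardinal.aleph 1 := by
  classical
  obtain ⟨J, _, _, hJ, hJ2⟩ := exists_J
  have hb := bdd_aux J hJ hJ2
  have hnm : ∀ i : J, ∃ j, i < j := by
    intro i
    obtain ⟨δ, hδ⟩ := hb {i} (by
      rw [Cardinal.mk_singleton]
      exact Cardinal.one_le_aleph0.trans (Cardinal.aleph0_le_aleph 1))
    exact ⟨δ, hδ i rfl⟩
  have hsc : ∀ α : WithTop J, ∃ β, α < ⊤ → β < ⊤ ∧ ∀ η, η < β ↔ η ≤ α := by
    intro α
    induction α using WithTop.recTopCoe with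
    | top => exact ⟨⊤, fun h => absurd h (lt_irrefl _)⟩
    | coe i =>
      obtain ⟨m, hm, hmin⟩ := (wellFounded_lt (α := J)).has_min {j | i < j} (hnm i)
      refine ⟨(m : WithTop J), fun _ => ⟨WithTop.coe_lt_top m, fun η => ?_⟩⟩
      induction η using WithTop.recTopCoe with
      | top => simp
      | coe e =>
        rw [WithTop.coe_lt_coe, WithTop.coe_le_coe]
        constructor
        · intro h
          by_contra hc
          exact hmin e (not_le.mp hc) h
        · exact fun h => lt_of_le_of_lt h hm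
  choose sc hsc1 using hsc
  refine ⟨WithTop J, inferInstance, inferInstance, ⊤, sc, fun α hα => (hsc1 α hα).1,
    fun α hα => (hsc1 α hα).2, fun s hs hsκ => ?_, fun α hα => ?_⟩
  · obtain ⟨δ, hδ⟩ := hb ((fun j : J => (j : WithTop J)) ⁻¹' s)
      ((Cardinal.mk_preimage_of_injective _ _ WithTop.coe_injective).trans hs)
    refine ⟨(δ : WithTop J), WithTop.coe_lt_top δ, fun i hi => ?_⟩
    obtain ⟨j, rfl⟩ := WithTop.ne_top_iff_exists.mp (hsκ i hi).ne
    exact WithTop.coe_lt_coe.mpr (hδ j hi)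
  · obtain ⟨i, rfl⟩ := WithTop.ne_top_iff_exists.mp hα.ne
    have h1 : Iio (i : WithTop J) = (fun j : J => (j : WithTop J)) '' (Iio i) := by
      ext x
      constructor
      · intro hx
        obtain ⟨j, rfl⟩ := WithTop.ne_top_iff_exists.mp (lt_trans hx hα).ne
        exact ⟨j, WithTop.coe_lt_coe.mp hx, rfl⟩
      · rintro ⟨j, hj, rfl⟩
        exact WithTop.coe_lt_coe.mpr hj
    rw [h1]
    exact Cardinal.mk_image_le.trans (hJ2 i)

theorem exists_Omega : ∃ (J : Type) (_ : LinearOrder J) (_ : WellFoundedLT J),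
    Cardinal.mk J = Cardinal.aleph 1 ∧ ∀ i : J, (Iio i).Countable := by
  refine ⟨(Cardinal.aleph 1).ord.ToType, inferInstance, inferInstance,
    Cardinal.mk_ord_toType _, fun i => ?_⟩
  have h3 : Cardinal.mk (Iio i) < Cardinal.aleph 1 := by
    simpa using Cardinal.mk_Iio_lt i
  have h4 : Cardinal.mk (Iio i) ≤ Cardinal.aleph0 :=
    Order.lt_succ_iff.mp (h3.trans_eq Cardinal.succ_aleph0.symm)
  exact Cardinal.mk_le_aleph0_iff.mp h4

variable {I : Type} [LinearOrder I] [WellFoundedLT I]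

theorem exists_closed_aux {κ : I}
    (hb : ∀ s : Set I, Cardinal.mk s ≤ Cardinal.aleph 1 → (∀ i ∈ s, i < κ) →
      ∃ δ < κ, ∀ i ∈ s, i < δ)
    (hs : ∀ α < κ, Cardinal.mk (Iio α) ≤ Cardinal.aleph 1) (g : I → I)
    (hg : ∀ α < κ, g α < κ) {α₀ : I} (h0 : α₀ < κ) :
    ∃ β < κ, α₀ < β ∧ (∀ α < β, g α < β) ∧
      ∀ s : Set I, s.Countable → (∀ i ∈ s, i < β) → ∃ δ < β, ∀ i ∈ s, i < δ := by
  classical
  -- the index set of the recursion
  obtain ⟨Ω, _, _, hΩ, hΩ2⟩ := exists_Omega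
  -- countable sets in `Ω` are bounded
  have hΩ3 : ∀ s : Set Ω, s.Countable → ∃ δ, ∀ i ∈ s, i < δ := by
    intro s hs
    by_contra hno
    push Not at hno
    have h1 : (univ : Set Ω) ⊆ ⋃ i ∈ s, Iic i := by
      intro δ _
      obtain ⟨i, hi, hδ⟩ := hno δ
      exact mem_iUnion₂.mpr ⟨i, hi, hδ⟩
    have h2 : (⋃ i ∈ s, Iic i).Countable := by
      refine hs.biUnion fun i _ => ?_
      rw [← Set.Iio_insert]
      exact (hΩ2 i).insert i
    have h3 : (univ : Set Ω).Countable := h2.mono h1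
    rw [Set.countable_univ_iff, ← Cardinal.mk_le_aleph0_iff, hΩ] at h3
    exact absurd h3 (not_le.mpr Cardinal.aleph0_lt_aleph_one)
  -- the bound function
  have hG : ∀ α, ∃ δ, α < κ → δ < κ ∧ α < δ ∧ ∀ α' < α, g α' < δ := by
    intro α
    by_cases hα : α < κ
    · obtain ⟨δ, hδ, hδ'⟩ := hb (insert α (g '' (Iio α))) (by
        refine (Cardinal.mk_insert_le).trans ?_
        refine Cardinal.add_le_of_le (Cardinal.aleph0_le_aleph 1)
          (Cardinal.mk_image_le.trans (hs α hα)) ?_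
        exact Cardinal.one_le_aleph0.trans (Cardinal.aleph0_le_aleph 1)) (by
        intro i hi
        rcases mem_insert_iff.mp hi with rfl | ⟨α', hα', rfl⟩
        · exact hα
        · exact hg α' (lt_trans hα' hα))
      exact ⟨δ, fun _ => ⟨hδ, hδ' α (mem_insert _ _), fun α' hα' =>
        hδ' _ (mem_insert_of_mem _ ⟨α', hα', rfl⟩)⟩⟩
    · exact ⟨α, fun h => absurd h hα⟩
  choose G hG using hG
  -- the recursion
  let F : ∀ i : Ω, (∀ j, j < i → I) → I := fun i f =>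
    if h : ∃ δ < κ, α₀ < δ ∧ ∀ j (hj : j < i), G (f j hj) < δ then h.choose else κ
  let b : Ω → I := (wellFounded_lt (α := Ω)).fix F
  have hbeq : ∀ i, b i = F i (fun j _ => b j) := fun i => (wellFounded_lt (α := Ω)).fix_eq F i
  have hb1 : ∀ i, b i < κ ∧ α₀ < b i ∧ ∀ j < i, G (b j) < b i := by
    intro i
    induction i using WellFoundedLT.induction with
    | _ i ih =>
      have h1 : ∃ δ < κ, α₀ < δ ∧ ∀ j (hj : j < i), G (b j) < δ := by
        obtain ⟨δ, hδ, hδ'⟩ := hb (insert α₀ ((fun j => G (b j)) '' (Iio i))) (by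
          refine (Cardinal.mk_insert_le).trans ?_
          refine Cardinal.add_le_of_le (Cardinal.aleph0_le_aleph 1)
            (Cardinal.mk_image_le.trans ?_) ?_
          · exact (Cardinal.mk_le_aleph0_iff.mpr (hΩ2 i).to_subtype).trans
              (Cardinal.aleph0_le_aleph 1)
          · exact Cardinal.one_le_aleph0.trans (Cardinal.aleph0_le_aleph 1)) (by
          intro x hx
          rcases mem_insert_iff.mp hx with rfl | ⟨j, hj, rfl⟩
          · exact h0
          · exact (hG _ (ih j hj).1).1)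
        exact ⟨δ, hδ, hδ' _ (mem_insert _ _), fun j hj =>
          hδ' _ (mem_insert_of_mem _ ⟨j, hj, rfl⟩)⟩
      have h2 : b i = h1.choose := by
        rw [hbeq]
        exact dif_pos h1
      rw [h2]
      exact ⟨h1.choose_spec.1, h1.choose_spec.2.1, fun j hj => h1.choose_spec.2.2 j hj⟩
  -- the least upper bound
  have hub : ∃ δ, δ < κ ∧ ∀ i, b i < δ := by
    obtain ⟨δ, hδ, hδ'⟩ := hb (Set.range b) (Cardinal.mk_range_le.trans hΩ.le) (by
      rintro _ ⟨i, rfl⟩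
      exact (hb1 i).1)
    exact ⟨δ, hδ, fun i => hδ' _ ⟨i, rfl⟩⟩
  obtain ⟨β, ⟨hβκ, hβ⟩, hmin⟩ := (wellFounded_lt (α := I)).has_min {δ | δ < κ ∧ ∀ i, b i < δ} hub
  have hcof : ∀ α < β, ∃ i, α < b i := by
    intro α hα
    by_contra hno
    push Not at hno
    -- `b i ≤ α` for all `i`, so `b i < α`, as `b` has no largest value
    refine hmin α ⟨lt_trans hα hβκ, fun i => ?_⟩ hα
    obtain ⟨j, hj⟩ := hΩ3 {i} (countable_singleton i)
    have h1 := (hb1 j).2.2 i (hj i rfl)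
    have h2 := (hG (b i) (hb1 i).1).2.1
    exact lt_of_lt_of_le (lt_trans h2 h1) (hno j)
  have hne : Nonempty Ω := by
    rw [← Cardinal.mk_ne_zero_iff, hΩ]
    exact (Cardinal.aleph_pos 1).ne'
  refine ⟨β, hβκ, ?_, fun α hα => ?_, fun s hsc hsβ => ?_⟩
  · exact lt_trans (hb1 hne.some).2.1 (hβ _)
  · obtain ⟨i, hi⟩ := hcof α hα
    obtain ⟨j, hj⟩ := hΩ3 {i} (countable_singleton i)
    have h1 := (hb1 j).2.2 i (hj i rfl)
    exact lt_trans (lt_trans ((hG (b i) (hb1 i).1).2.2 α hi) h1) (hβ j)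
  · choose! f hf using hcof
    obtain ⟨j, hj⟩ := hΩ3 (f '' s) (hsc.image f)
    refine ⟨b j, hβ j, fun i hi => ?_⟩
    have h1 := hf i (hsβ i hi)
    have h2 := (hb1 j).2.2 (f i) (hj _ ⟨i, hi, rfl⟩)
    exact lt_trans h1 (lt_trans (hG _ (hb1 _).1).2.1 h2)

end BM

end Pool.Agent.Helper34.SG
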