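import Pool.Agent.Helper34.SG.Names
import Pool.Agent.Helper5.SG.Ccc

/-! Block G (helper24): limit steps. -/

namespace Pool.Agent.Helper34.SG

open Set Function

variable {I : Type} [LinearOrder I] [WellFoundedLT I]

namespace BG

theorem le_of_supp {δ γ : I} {w a : Cn I} (h : Le δ w a) (hs : ∀ η < γ, a.dom η → η < δ) :
    Le γ w a := by
  rw [Le_iff] at h ⊢
  exact fun η hη hd => h η (hs η hη hd) hd

theorem ext_cut {δ γ : I} {p : Cn I} (hp : Val γ p) : Ext γ p (cut δ p) :=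
  ⟨hp, cut_le (Le.refl δ p)⟩

end BG

open BG

theorem bdd_reg {γ β : I} (hβ : β < γ)
    (hγ : ∀ s : Set I, s.Countable → (∀ i ∈ s, i < γ) → ∃ δ < γ, ∀ i ∈ s, i < δ)
    (φ : ℕ → Cn I → Prop) (hφ : ∀ n, Reg γ (φ n)) :
    ∃ δ < γ, β ≤ δ ∧ ∀ δ', δ ≤ δ' → δ' ≤ γ → ∀ n p, Val γ p → (φ n p ↔ φ n (cut δ' p)) := by
  choose A hAc hA hAinc hAmax using fun n : ℕ =>
    exists_antichain γ (fun a => φ n a ∨ ∀ b, Ext γ b a → ¬ φ n b)
  obtain ⟨δ, hδ, hδs⟩ := hγ (insert β (⋃ n, ⋃ a ∈ A n, {η | η < γ ∧ a.dom η})) (by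
      refine Countable.insert _ ?_
      refine countable_iUnion fun n => (hAc n).biUnion fun a ha => ?_
      exact (((Val_iff γ a).1 (hA n a ha).1).1).countable) (by
      intro i hi
      rcases mem_insert_iff.1 hi with rfl | hi
      · exact hβ
      · obtain ⟨n, hn⟩ := mem_iUnion.1 hi
        obtain ⟨a, _, hia⟩ := mem_iUnion₂.1 hn
        exact hia.1)
  refine ⟨δ, hδ, (hδs β (mem_insert _ _)).le, fun δ' hδ' hδγ n p hp => ⟨fun hφp => ?_, fun h =>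
    (hφ n).mono _ _ (ext_cut hp) h⟩⟩
  refine (hφ n).dense _ (Val_cut γ (hp.anti hδγ)) fun q hq => ?_
  obtain ⟨e, he, hD⟩ : ∃ e, Ext γ e q ∧ (φ n e ∨ ∀ b, Ext γ b e → ¬ φ n b) := by
    by_cases h : ∃ e, Ext γ e q ∧ φ n e
    · obtain ⟨e, he, h1⟩ := h
      exact ⟨e, he, Or.inl h1⟩
    · push Not at h
      exact ⟨q, Ext.refl hq.1, Or.inr h⟩
  obtain ⟨a, ha, hea⟩ := hAmax n e he.1 hD
  obtain ⟨u, hu, hue, hua⟩ : ∃ u, Val γ u ∧ Le γ u e ∧ Le γ u a := not_not.mp hea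
  have huq : Ext γ u q := ⟨hu, hue.trans he.2⟩
  rcases (hA n a ha).2 with h | h
  · exact ⟨u, huq, (hφ n).mono _ _ ⟨hu, hua⟩ h⟩
  · exfalso
    have h1 : Ext δ' u p := ⟨hu.anti hδγ, ((huq.trans hq).2.anti hδγ).trans (cut_agr δ' p).le⟩
    have h2 : Ext γ (mix δ' u p) p := mix_ext h1 hp
    refine h (mix δ' u p) ⟨h2.1, ?_⟩ ((hφ n).mono _ _ h2 hφp)
    refine le_of_supp ((mix_agr δ' u p).le.trans (hua.anti hδγ)) fun η hη hd => ?_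
    refine lt_of_lt_of_le (hδs η (mem_insert_of_mem _ ?_)) hδ'
    exact mem_iUnion.2 ⟨n, mem_iUnion₂.2 ⟨a, ha, hη, hd⟩⟩

theorem key_res {β δ γ : I} (hβ : β ≤ δ) (hδ : δ ≤ γ) (T : CN γ)
    (hT : ∀ σ p, Val γ p → T.O σ p → T.O σ (cut δ p)) (D : Set (CN β))
    (h : KeyD (T.res δ hδ) D) : KeyD T D := by
  intro r hr C hC hsub
  have hsub' : Sub δ r (T.res δ hδ).O C := by
    intro σ q hq hCq
    change T.O σ (cut δ q)
    have h1 : Ext γ (mix δ q r) r := mix_ext hq hr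
    have h2 : Ext δ (mix δ q r) q := mix_ext' hq.1
    have h3 := hT σ _ h1.1 (hsub σ _ h1 (hC σ q _ (h2.anti hβ) hCq))
    refine (T.reg σ).mono _ _ ⟨Val_cut γ hq.1, cut_le ?_⟩ h3
    exact (cut_agr δ q).le.trans (mix_agr δ q r).symm.le
  rcases h r (hr.anti hδ) C hC hsub' with ⟨r', hr', N, hN⟩ | h
  · left
    refine ⟨mix δ r' r, mix_ext hr' hr, N, fun m u q hq hU σ hσ => ?_⟩
    have h1 : Ext δ q r' := (hq.anti hδ).trans (mix_ext' hr'.1)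
    exact (T.reg σ).mono _ _ (ext_cut hq.1) (hN m u q h1 hU σ hσ)
  · exact Or.inr h

theorem key_lim {β γ : I} (T : CN γ) (s : Set I) (hne : s.Nonempty) (hs : ∀ δ ∈ s, β ≤ δ ∧ δ < γ)
    (hc : ∀ i < γ, ∃ δ ∈ s, i < δ) (D : I → Set (CN β))
    (h : ∀ δ (hδ : δ ∈ s), KeyD (T.res δ (hs δ hδ).2.le) (D δ)) : KeyD T (⋃ δ ∈ s, D δ) := by
  intro r hr C hC hsub
  -- a bound of the support
  obtain ⟨δ, hδs, hδ⟩ : ∃ δ ∈ s, ∀ η < γ, r.dom η → η < δ := by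
    have hfin := ((Val_iff γ r).1 hr).1
    by_cases hemp : ({η | η < γ ∧ r.dom η} : Set I).Nonempty
    · obtain ⟨m, hm, hmax⟩ := Set.exists_max_image _ id hfin hemp
      obtain ⟨δ, hδ, hmδ⟩ := hc m hm.1
      exact ⟨δ, hδ, fun η hη hd => lt_of_le_of_lt (hmax η ⟨hη, hd⟩) hmδ⟩
    · obtain ⟨δ, hδ⟩ := hne
      exact ⟨δ, hδ, fun η hη hd => absurd ⟨η, hη, hd⟩ hemp⟩
  obtain ⟨hβδ, hδγ⟩ := hs δ hδs
  have hsub' : Sub δ r (T.res δ hδγ.le).O C := by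
    intro σ q hq hCq
    refine hsub σ (cut δ q) ⟨Val_cut γ hq.1, le_of_supp ((cut_agr δ q).le.trans hq.2) hδ⟩ ?_
    exact hC σ q _ (((cut_agr δ q).ext hq.1).anti hβδ) hCq
  rcases h δ hδs r (hr.anti hδγ.le) C hC hsub' with ⟨r', hr', N, hN⟩ | ⟨S, hS, q, hq, h1, h2⟩
  · left
    refine ⟨cut δ r', ⟨Val_cut γ hr'.1, le_of_supp ((cut_agr δ r').le.trans hr'.2) hδ⟩, N,
      fun m u q hq hU σ hσ => ?_⟩
    have h1 : Ext δ q r' := ⟨hq.1.anti hδγ.le, (hq.2.anti hδγ.le).trans (cut_agr δ r').le⟩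
    exact (T.reg σ).mono _ _ (ext_cut hq.1) (hN m u q h1 hU σ hσ)
  · exact Or.inr ⟨S, mem_iUnion₂.2 ⟨δ, hδs, hS⟩, q, hq, h1, h2⟩

end Pool.Agent.Helper34.SG
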