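import Pool.Agent.Helper34.SG.Names
import Pool.Agent.Helper5.SG.Ccc

/-! Block C2 (helper24): selection of names by antichains. -/

namespace Pool.Agent.Helper34.SG

open Set Function

variable {I : Type} [LinearOrder I] [WellFoundedLT I]

open Classical in
theorem exists_NS (β : I) (r : Cn I) (Φ : ℕ → Finset (List Bool) → Cn I → Prop)
    (mono : ∀ m u p q, Ext β q p → Φ m u p → Φ m u q)
    (small : ∀ m u p, Φ m u p → wt u ≤ (1 / 2) ^ m)
    (dense : ∀ m p, Ext β p r → ∃ q u, Ext β q p ∧ Φ m u q) :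
    ∃ N : NS β, ∀ m u q, Ext β q r → N.U m u q → Φ m u q := by
  choose A _ hA hAinc hAmax using fun m : ℕ =>
    exists_antichain β (fun p => (Ext β p r ∧ ∃ u, Φ m u p) ∨ Inc β p r)
  let sel : ℕ → Cn I → Finset (List Bool) := fun m a =>
    if h : Ext β a r ∧ ∃ u, Φ m u a then h.2.choose else ∅
  refine ⟨⟨fun m u p => ∃ a ∈ A m, Le β p a ∧ u = sel m a, ?_, ?_, ?_, ?_⟩, ?_⟩
  · rintro m u p q hq ⟨a, ha, hpa, rfl⟩
    exact ⟨a, ha, hq.2.trans hpa, rfl⟩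
  · rintro m u v p hp ⟨a, ha, hpa, rfl⟩ ⟨b, hb, hpb, rfl⟩
    by_cases hab : a = b
    · rw [hab]
    · exact absurd ⟨p, hp, hpa, hpb⟩ (hAinc m a ha b hb hab)
  · intro m p hp
    obtain ⟨q, hq, hD⟩ : ∃ q, Ext β q p ∧ ((Ext β q r ∧ ∃ u, Φ m u q) ∨ Inc β q r) := by
      by_cases hpr : Inc β p r
      · exact ⟨p, Ext.refl hp, Or.inr hpr⟩
      · have : ∃ u, Val β u ∧ Le β u p ∧ Le β u r := not_not.mp hpr
        obtain ⟨w, hw, hwp, hwr⟩ := this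
        obtain ⟨q, u, hq, hu⟩ := dense m w ⟨hw, hwr⟩
        exact ⟨q, ⟨hq.1, hq.2.trans hwp⟩, Or.inl ⟨⟨hq.1, hq.2.trans hwr⟩, u, hu⟩⟩
    obtain ⟨a, ha, hqa⟩ := hAmax m q hq.1 hD
    have : ∃ u, Val β u ∧ Le β u q ∧ Le β u a := not_not.mp hqa
    obtain ⟨w, hw, hwq, hwa⟩ := this
    exact ⟨w, sel m a, ⟨hw, hwq.trans hq.2⟩, a, ha, hwa, rfl⟩
  · rintro m u p ⟨a, ha, _, rfl⟩
    by_cases h : Ext β a r ∧ ∃ u, Φ m u a
    · have h1 : sel m a = h.2.choose := dif_pos h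
      rw [h1]
      exact small m _ a h.2.choose_spec
    · have h1 : sel m a = ∅ := dif_neg h
      rw [h1]
      simp [wt]
  · rintro m u q hq ⟨a, ha, hqa, rfl⟩
    have h : Ext β a r ∧ ∃ u, Φ m u a := by
      rcases (hA m a ha).2 with h | h
      · exact h
      · exact absurd ⟨q, hq.1, hqa, hq.2⟩ h
    have h1 : sel m a = h.2.choose := dif_pos h
    rw [h1]
    exact mono m _ a q ⟨hq.1, hqa⟩ h.2.choose_spec

theorem base_case (β : I) (T : CN β) (r : Cn I) (hr : Val β r) :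
    (∃ r', Ext β r' r ∧ ∃ N : NS β, Covers β T.O N r') ∨ ∃ q, Ext β q r ∧ NN β T.O q := by
  by_cases h : ∀ m : ℕ, ∀ p, Ext β p r → ∃ q u, Ext β q p ∧ (wt u ≤ (1 / 2) ^ m ∧ InC T.O u q)
  · left
    obtain ⟨N, hN⟩ := exists_NS β r (fun m u p => wt u ≤ (1 / 2) ^ m ∧ InC T.O u p)
      (fun m u p q hq hp => ⟨hp.1, fun σ hσ => (T.reg σ).mono p q hq (hp.2 σ hσ)⟩)
      (fun m u p hp => hp.1) h
    exact ⟨r, Ext.refl hr, N, fun m u q hq hU => (hN m u q hq hU).2⟩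
  · right
    push Not at h
    obtain ⟨m, p, hp, hno⟩ := h
    exact ⟨p, hp, m, fun q hq u hu => hno q u hq hu⟩

end Pool.Agent.Helper34.SG
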