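import Pool.Agent.Helper24.SG.Stein2

/-! Block S3 (helper24): the Steinhaus property of the circle group. -/

namespace Pool.Agent.Helper34.SG

namespace S23

open Finset

theorem bv_append_singleton (σ : List Bool) (b : Bool) : bv (σ ++ [b]) = 2 * bv σ + b.toNat := by
  simp [bv, List.foldl_append]

theorem bv_append (σ ρ : List Bool) : bv (σ ++ ρ) = bv σ * 2 ^ ρ.length + bv ρ := by
  induction ρ using List.reverseRecOn with
  | nil => simp [bv]
  | append_singleton ρ b ih =>
    rw [← List.append_assoc, bv_append_singleton, ih, bv_append_singleton, List.length_append,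
      List.length_singleton, pow_succ]
    ring

theorem bv_lt (σ : List Bool) : bv σ < 2 ^ σ.length := by
  induction σ using List.reverseRecOn with
  | nil => simp [bv]
  | append_singleton σ b ih =>
    rw [bv_append_singleton, List.length_append, List.length_singleton, pow_succ]
    have : b.toNat ≤ 1 := Bool.toNat_le b
    omega

theorem bits_length (k n : ℕ) : (bits k n).length = k := by
  induction k generalizing n with
  | zero => rfl
  | succ k ih => rw [bits, List.length_append, ih, List.length_singleton]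

theorem bv_bits (k n : ℕ) : bv (bits k n) = n % 2 ^ k := by
  induction k generalizing n with
  | zero => simp [bits, bv, Nat.mod_one]
  | succ k ih =>
    rw [bits, bv_append_singleton, ih, pow_succ, mul_comm (2 ^ k) 2, Nat.mod_mul]
    have : (decide (n % 2 = 1)).toNat = n % 2 := by
      rcases Nat.mod_two_eq_zero_or_one n with h | h <;> simp [h]
    rw [this]
    omega

theorem bits_bv (σ : List Bool) : bits σ.length (bv σ) = σ := by
  induction σ using List.reverseRecOn with
  | nil => rfl
  | append_singleton σ b ih =>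
    rw [List.length_append, List.length_singleton, bits, bv_append_singleton]
    have h1 : (2 * bv σ + b.toNat) / 2 = bv σ := by
      have : b.toNat ≤ 1 := Bool.toNat_le b
      omega
    have h2 : decide ((2 * bv σ + b.toNat) % 2 = 1) = b := by
      cases b <;> simp [Nat.add_mod]
    rw [h1, h2, ih]

theorem bits_split (m j N : ℕ) : bits (m + j) N = bits m (N / 2 ^ j) ++ bits j N := by
  induction j generalizing N with
  | zero => simp [bits]
  | succ j ih =>
    rw [← add_assoc, bits, ih, bits, List.append_assoc, Nat.div_div_eq_div_mul, pow_succ,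
      mul_comm 2 (2 ^ j)]

theorem bits_add (m t C : ℕ) : bits m (t + C * 2 ^ m) = bits m t := by
  induction m generalizing t with
  | zero => rfl
  | succ m ih =>
    rw [bits, bits]
    have h1 : (t + C * 2 ^ (m + 1)) / 2 = t / 2 + C * 2 ^ m := by
      rw [pow_succ, ← mul_assoc, Nat.add_mul_div_right _ _ (by norm_num)]
    have h2 : (t + C * 2 ^ (m + 1)) % 2 = t % 2 := by
      rw [pow_succ, ← mul_assoc, Nat.add_mul_mod_self_right]
    rw [h1, h2, ih]

theorem bv_inj {σ τ : List Bool} (h : σ.length = τ.length) (h2 : bv σ = bv τ) : σ = τ := by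
  rw [← bits_bv σ, ← bits_bv τ, h, h2]

/-- the blocks -/
theorem bv_block {ρ b : List Bool} (h : ρ <+: b) :
    bv ρ * 2 ^ (b.length - ρ.length) ≤ bv b ∧
      bv b < (bv ρ + 1) * 2 ^ (b.length - ρ.length) := by
  obtain ⟨b', rfl⟩ := h
  rw [bv_append, List.length_append, Nat.add_sub_cancel_left, Nat.add_mul, one_mul]
  have := bv_lt b'
  omega

end S23

open S23 Finset in
theorem stein_circle : Stein NbR := by
  classical
  intro ρ₁ σ₁ hlen
  refine ⟨bits (ρ₁.length + 3) (8 * (bv ρ₁ + bv σ₁ + 1)), fun τ hτ => ⟨τ.length + 2,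
    fun k hk B A hB hA hBc hAc => ?_⟩⟩
  set l := ρ₁.length with hl
  set r := bv ρ₁ with hr
  set s := bv σ₁ with hs
  have hrl : r < 2 ^ l := bv_lt ρ₁
  have hsl : s < 2 ^ l := by rw [hs, hlen]; exact bv_lt σ₁
  set τ₀ := bits (l + 3) (8 * (r + s + 1)) with hτ₀
  have hτ₀l : τ₀.length = l + 3 := bits_length _ _
  have hml : l + 3 ≤ τ.length := hτ₀l ▸ hτ.length_le
  set m := τ.length with hm
  -- the powers of two
  obtain ⟨d, hd⟩ : ∃ d, m = l + 3 + d := ⟨m - (l + 3), by omega⟩
  obtain ⟨f, hf⟩ : ∃ f, k = m + 2 + f := ⟨k - (m + 2), by omega⟩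
  set Q := 2 ^ (2 + f) with hQ            -- length of the block of `τ`
  set D := 2 ^ d with hD
  have hkm : k - m = 2 + f := by omega
  have hkl : 2 ^ (k - l) = 8 * (D * Q) := by
    rw [show k - l = 3 + (d + (2 + f)) by omega, pow_add, pow_add]
    rfl
  have hQ4 : 4 ≤ Q := by
    rw [hQ, pow_add]
    have : 1 ≤ 2 ^ f := Nat.one_le_two_pow
    omega
  have hD1 : 1 ≤ D := Nat.one_le_two_pow
  set L := 2 ^ l with hL
  have h2k : 2 ^ k = L * (8 * (D * Q)) := by
    rw [← hkl, ← pow_add]
    congr 1
    omega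
  set t := bv τ with ht
  -- position of `τ` in the block of `τ₀`
  obtain ⟨ht1, ht2⟩ := bv_block hτ
  have hmd : τ.length - τ₀.length = d := by rw [← hm, hτ₀l]; omega
  rw [hmd, ← ht, ← hD, bv_bits] at ht1 ht2
  -- the carry
  have hL8 : 2 ^ (l + 3) = 8 * L := by rw [pow_add]; ring
  rw [hL8] at ht1 ht2
  obtain ⟨c, hc⟩ : ∃ c, 8 * (r + s + 1) = 8 * (r + s + 1) % (8 * L) + c * (8 * L) :=
    ⟨8 * (r + s + 1) / (8 * L), (Nat.mod_add_div' _ _).symm⟩
  set x := 8 * (r + s + 1) % (8 * L) with hx
  -- the target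
  set w := t * Q + 1 + c * (L * (8 * (D * Q))) with hw
  have hw1 : (r + s + 1) * (8 * (D * Q)) + 1 ≤ w := by
    have h1 : (r + s + 1) * (8 * (D * Q)) = x * D * Q + c * (L * (8 * (D * Q))) := by
      calc (r + s + 1) * (8 * (D * Q)) = (8 * (r + s + 1)) * (D * Q) := by ring
        _ = (x + c * (8 * L)) * (D * Q) := by rw [← hc]
        _ = _ := by ring
    have h2 : x * D * Q ≤ t * Q := Nat.mul_le_mul_right _ ht1
    omega
  have hw2 : w + 3 ≤ (r + s + 1) * (8 * (D * Q)) + D * Q := by
    have h1 : (r + s + 1) * (8 * (D * Q)) = x * D * Q + c * (L * (8 * (D * Q))) := by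
      calc (r + s + 1) * (8 * (D * Q)) = (8 * (r + s + 1)) * (D * Q) := by ring
        _ = (x + c * (8 * L)) * (D * Q) := by rw [← hc]
        _ = _ := by ring
    have h2 : (t + 1) * Q ≤ (x + 1) * D * Q := Nat.mul_le_mul_right _ ht2
    have h3 : (x + 1) * D * Q = x * D * Q + D * Q := by ring
    have h4 : (t + 1) * Q = t * Q + Q := by ring
    omega
  -- the two sets of numbers
  set N := 8 * (D * Q) with hN
  have hkl' : k - ρ₁.length = k - l := rfl
  have hBim : (B.image bv).card = B.card := by
    rw [card_image_of_injOn]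
    intro y hy z hz hyz
    exact bv_inj ((hB y hy).1.trans (hB z hz).1.symm) hyz
  have hAbd : ∀ a ∈ A, s * N ≤ bv a ∧ bv a < (s + 1) * N := by
    intro a ha
    have h1 := bv_block (hA a ha).2
    rw [(hA a ha).1, ← hlen, hkl] at h1
    exact h1
  have hBbd : ∀ a ∈ B, r * N ≤ bv a ∧ bv a < (r + 1) * N := by
    intro a ha
    have h1 := bv_block (hB a ha).2
    rw [(hB a ha).1, ← hl, hkl] at h1
    exact h1
  have hexp1 : (r + s + 1) * N = r * N + s * N + N := by ring
  have hexp2 : (s + 1) * N = s * N + N := by ring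
  have hexp3 : (r + 1) * N = r * N + N := by ring
  have hDQN : N = 8 * (D * Q) := hN
  have hAlt : ∀ a ∈ A, bv a < w := by
    intro a ha
    have := (hAbd a ha).2
    omega
  have hAim : (A.image (fun a => w - bv a)).card = A.card := by
    rw [card_image_of_injOn]
    intro y hy z hz hyz
    dsimp only at hyz
    have h1 := hAlt y hy
    have h2 := hAlt z hz
    exact bv_inj ((hA y hy).1.trans (hA z hz).1.symm) (by omega)
  have hsub : B.image bv ∪ A.image (fun a => w - bv a) ⊆ Finset.Ico (r * N) (w - s * N + 1) := by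
    intro y hy
    rw [mem_Ico]
    rcases mem_union.mp hy with hy | hy
    · obtain ⟨b, hb, rfl⟩ := mem_image.mp hy
      have := hBbd b hb
      omega
    · obtain ⟨a, ha, rfl⟩ := mem_image.mp hy
      have := hAbd a ha
      omega
  have hun : (B.image bv ∪ A.image (fun a => w - bv a)).card < N + N / 2 := by
    refine lt_of_le_of_lt (card_le_card hsub) ?_
    rw [Nat.card_Ico]
    omega
  have hne : (B.image bv ∩ A.image (fun a => w - bv a)).Nonempty := by
    rw [nonempty_iff_ne_empty]
    intro h0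
    have h1 := card_union_add_card_inter (B.image bv) (A.image (fun a => w - bv a))
    rw [h0, card_empty, add_zero, hAim, hBim] at h1
    rw [h1] at hun
    have h2 : 2 * (B.card + A.card) < 3 * N := by omega
    have h3 : (2 : ℝ) * (B.card + A.card) < 3 * N := by exact_mod_cast h2
    have h4 : ((2 : ℝ) ^ (k - l)) = N := by
      have : ((2 ^ (k - l) : ℕ) : ℝ) = (N : ℝ) := by rw [hkl]
      rw [← this]
      push_cast
      rfl
    rw [h4] at hBc hAc
    linarith
  obtain ⟨y, hy⟩ := hne
  obtain ⟨hyB, hyA⟩ := mem_inter.mp hy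
  obtain ⟨b, hb, rfl⟩ := mem_image.mp hyB
  obtain ⟨a, ha, hab⟩ := mem_image.mp hyA
  have hsum : bv b + bv a = w := by
    have := hAlt a ha
    omega
  refine ⟨b, hb, a, ha, fun u hu => ?_⟩
  rw [NbR, mem_image] at hu
  obtain ⟨e, he, rfl⟩ := hu
  rw [mem_range] at he
  rw [hsum, (hB b hb).1]
  have h1 : w + 2 ^ k - 1 + e = (t + (c + 1) * 2 ^ m) * Q + e := by
    have h2 : 2 ^ m * Q = L * N := by
      rw [← h2k, hQ, ← pow_add]
      congr 1
      omega
    have h3 : (t + (c + 1) * 2 ^ m) * Q = t * Q + (c + 1) * (2 ^ m * Q) := by ring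
    rw [h3, h2, h2k, hw]
    have h4 : (c + 1) * (L * N) = c * (L * N) + L * N := by ring
    omega
  rw [h1, show k = m + (2 + f) by omega, bits_split, ← hQ]
  have h5 : ((t + (c + 1) * 2 ^ m) * Q + e) / Q = t + (c + 1) * 2 ^ m := by
    rw [mul_comm, Nat.mul_add_div (by omega), Nat.div_eq_of_lt (by omega), add_zero]
  rw [h5, bits_add, ht, hm, bits_bv]
  exact List.prefix_append _ _

end Pool.Agent.Helper34.SG
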